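import Mathlib

/-!
A hyperbolic convex locally shallow c-polyhedron which is not globally shallow: the cone over a
square pyramid, with the vertex rays `(±5, ±5, 0, -4)` (base) and `(0, 0, 4, -3)` (apex).
-/

set_option autoImplicit false

namespace Pool.Agent.Results.MP_625e57_gt.NotGloballyShallow

/-- The Lorentz form on `ℝ ^ {3,1}`. -/
def lor (u v : Fin 4 → ℝ) : ℝ := u 0 * v 0 + u 1 * v 1 + u 2 * v 2 - u 3 * v 3

/-- The open oriented disk of the unit sphere `S ^ 2` determined by `n`. -/
def disk (n : Fin 4 → ℝ) : Set (EuclideanSpace ℝ (Fin 3)) :=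
  {x | ‖x‖ = 1 ∧ 0 < n 0 * x 0 + n 1 * x 1 + n 2 * x 2 - n 3}

/-- The inversive distance of the disks determined by the spacelike vectors `m`, `n`. -/
noncomputable def inv (m n : Fin 4 → ℝ) : ℝ := -(lor m n) / (√(lor m m) * √(lor n n))

/-- `Supp n f`: the cone generated by the vectors `n v` lies on one side of the hyperplane through
the origin which is orthogonal to `f` (for the Lorentz form). -/
def Supp {V : Type} (n : V → Fin 4 → ℝ) (f : Fin 4 → ℝ) : Prop := f ≠ 0 ∧ ∀ v, lor f (n v) ≤ 0

/-- A convex c-polyhedron, given by its vertex rays `n v`: the convex polyhedral cone generated by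
the finitely many vectors `n v` has its apex at the origin (a linear function is negative on all
of them) and nonempty interior (they span the space), the vectors `n v` are spacelike and they are
the vertex rays (the extreme rays) of this cone, without repetition. -/
structure ConvexCPolyhedron {V : Type} [Fintype V] (n : V → Fin 4 → ℝ) : Prop where
  apex : ∃ f, ∀ v, lor f (n v) < 0
  solid : Submodule.span ℝ (Set.range n) = ⊤
  spacelike : ∀ v, 0 < lor (n v) (n v)
  vertex : ∀ v, ∃ f, Supp n f ∧ ∀ w, lor f (n w) = 0 ↔ w = v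

/-- Two vertices are adjacent if their rays span a two-dimensional face of the cone. -/
def Adj {V : Type} (n : V → Fin 4 → ℝ) (v w : V) : Prop :=
  v ≠ w ∧ ∃ f, Supp n f ∧ ∀ u, lor f (n u) = 0 ↔ u = v ∨ u = w

/-- Hyperbolic: the support hyperplane of every (three-dimensional) face of the cone meets the
interior of the light cone. -/
def Hyperbolic {V : Type} (n : V → Fin 4 → ℝ) : Prop :=
  ∀ f, Supp n f → Module.finrank ℝ (Submodule.span ℝ (n '' {v | lor f (n v) = 0})) = 3 →
    ∃ x, lor f x = 0 ∧ lor x x < 0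

/-- The condition on a pair of vertices in the definitions of shallowness. -/
def ShallowPair (m n : Fin 4 → ℝ) : Prop :=
  0 < inv m n ∧ (1 ≤ inv m n → disk m ∩ disk n = ∅)

/-- Locally shallow: the condition holds for adjacent vertices. -/
def LocallyShallow {V : Type} (n : V → Fin 4 → ℝ) : Prop :=
  ∀ v w, Adj n v w → ShallowPair (n v) (n w)

/-- Globally shallow: the condition holds for any two distinct vertices. -/
def GloballyShallow {V : Type} (n : V → Fin 4 → ℝ) : Prop :=
  ∀ v w, v ≠ w → ShallowPair (n v) (n w)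

/-- the vertex rays of the example -/
def ray : Fin 5 → Fin 4 → ℝ :=
  ![![5, 5, 0, -4], ![-5, 5, 0, -4], ![-5, -5, 0, -4], ![5, -5, 0, -4], ![0, 0, 4, -3]]

theorem l0 (f : Fin 4 → ℝ) : lor f (ray 0) = 5 * f 0 + 5 * f 1 + 4 * f 3 := by
  simp [lor, ray]; ring
theorem l1 (f : Fin 4 → ℝ) : lor f (ray 1) = -5 * f 0 + 5 * f 1 + 4 * f 3 := by
  simp [lor, ray]; ring
theorem l2 (f : Fin 4 → ℝ) : lor f (ray 2) = -5 * f 0 - 5 * f 1 + 4 * f 3 := by
  simp [lor, ray]; ring
theorem l3 (f : Fin 4 → ℝ) : lor f (ray 3) = 5 * f 0 - 5 * f 1 + 4 * f 3 := by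
  simp [lor, ray]; ring
theorem l4 (f : Fin 4 → ℝ) : lor f (ray 4) = 4 * f 2 + 3 * f 3 := by
  simp [lor, ray]; ring

theorem forall5 {p : Fin 5 → Prop} : (∀ v, p v) ↔ p 0 ∧ p 1 ∧ p 2 ∧ p 3 ∧ p 4 := by
  constructor
  · intro h; exact ⟨h 0, h 1, h 2, h 3, h 4⟩
  · rintro ⟨h0, h1, h2, h3, h4⟩ v
    fin_cases v <;> assumption

theorem poly : ConvexCPolyhedron ray where
  apex := ⟨![0, 0, 0, -1], by
    rw [forall5, l0, l1, l2, l3, l4]; simp⟩
  solid := by
    rw [eq_top_iff]
    intro x _
    have hx : x = ((x 0 + x 1) / 20 - x 3 / 16 - 3 * x 2 / 64) • ray 0 +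
        ((x 1 - x 0) / 20 - x 3 / 16 - 3 * x 2 / 64) • ray 1 +
        (-(x 0 + x 1) / 20 - x 3 / 16 - 3 * x 2 / 64) • ray 2 +
        ((x 0 - x 1) / 20 - x 3 / 16 - 3 * x 2 / 64) • ray 3 + (x 2 / 4) • ray 4 := by
      ext i
      fin_cases i <;> simp [ray] <;> ring
    rw [hx]
    refine add_mem (add_mem (add_mem (add_mem ?_ ?_) ?_) ?_) ?_ <;>
      exact Submodule.smul_mem _ _ (Submodule.subset_span ⟨_, rfl⟩)
  spacelike := by
    rw [forall5]
    simp [lor, ray]
    norm_num
  vertex := by
    rw [forall5]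
    refine ⟨⟨![1, 1, 1, -5 / 2], ?_⟩, ⟨![-1, 1, 1, -5 / 2], ?_⟩,
      ⟨![-1, -1, 1, -5 / 2], ?_⟩, ⟨![1, -1, 1, -5 / 2], ?_⟩,
      ⟨![0, 0, 3, -4], ?_⟩⟩ <;>
    · refine ⟨⟨?_, ?_⟩, ?_⟩
      · intro h
        have := congrFun h 3
        simp at this
      · rw [forall5, l0, l1, l2, l3, l4]; simp; norm_num
      · rw [forall5, l0, l1, l2, l3, l4]; simp; norm_num

theorem timelike {f : Fin 4 → ℝ} (h : 0 < lor f f) : ∃ x, lor f x = 0 ∧ lor x x < 0 := by
  set q : ℝ := f 0 ^ 2 + f 1 ^ 2 + f 2 ^ 2 with hq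
  have h1 : f 3 ^ 2 < q := by
    unfold lor at h
    rw [hq]; nlinarith
  have hq0 : 0 < q := lt_of_le_of_lt (sq_nonneg _) h1
  refine ⟨![f 3 * f 0, f 3 * f 1, f 3 * f 2, q], ?_, ?_⟩
  · simp [lor]
    rw [hq]; ring
  · have h2 : lor ![f 3 * f 0, f 3 * f 1, f 3 * f 2, q] ![f 3 * f 0, f 3 * f 1, f 3 * f 2, q] =
        q * (f 3 ^ 2 - q) := by
      simp [lor]
      rw [hq]; ring
    rw [h2]
    exact mul_neg_of_pos_of_neg hq0 (by linarith)

theorem hyper : Hyperbolic ray := by
  classical
  intro f hf hr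
  obtain ⟨hf0, hs⟩ := hf
  rw [forall5, l0, l1, l2, l3, l4] at hs
  obtain ⟨s0, s1, s2, s3, s4⟩ := hs
  -- at least three of the five values vanish
  have hcard : ∀ T : Finset (Fin 5), {v | lor f (ray v) = 0} ⊆ (T : Set (Fin 5)) → 3 ≤ T.card := by
    intro T hT
    have h1 : Module.finrank ℝ (Submodule.span ℝ (ray '' {v | lor f (ray v) = 0})) ≤ T.card := by
      refine (Submodule.finrank_mono (Submodule.span_mono (Set.image_mono hT))).trans ?_
      have := finrank_span_finset_le_card (R := ℝ) (T.image ray)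
      rw [Finset.coe_image] at this
      exact this.trans Finset.card_image_le
    omega
  apply timelike
  -- two neighbouring base vertices cannot both be missed
  have hne : ∀ i j k : Fin 5, i ≠ j → j ≠ k → i ≠ k → lor f (ray i) ≠ 0 → lor f (ray j) ≠ 0 →
      lor f (ray k) ≠ 0 → False := by
    intro i j k hij hjk hik hi hj hk
    have h1 := hcard ({i, j, k} : Finset (Fin 5))ᶜ (by
      intro v hv
      simp only [Finset.coe_compl, Set.mem_compl_iff, Finset.mem_coe, Finset.mem_insert,
        Finset.mem_singleton]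
      rintro (rfl | rfl | rfl)
      · exact hi hv
      · exact hj hv
      · exact hk hv)
    rw [Finset.card_compl, Fintype.card_fin, Finset.card_insert_of_notMem (by simp [hij, hik]),
      Finset.card_pair hjk] at h1
    omega
  have key : ∀ i j k : Fin 5, i ≠ j → j ≠ k → i ≠ k →
      lor f (ray i) = 0 ∨ lor f (ray j) = 0 ∨ lor f (ray k) = 0 := by
    intro i j k hij hjk hik
    by_contra hcon
    push Not at hcon
    exact hne i j k hij hjk hik hcon.1 hcon.2.1 hcon.2.2
  have k012 := key 0 1 2 (by decide) (by decide) (by decide)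
  have k013 := key 0 1 3 (by decide) (by decide) (by decide)
  have k023 := key 0 2 3 (by decide) (by decide) (by decide)
  have k123 := key 1 2 3 (by decide) (by decide) (by decide)
  have k014 := key 0 1 4 (by decide) (by decide) (by decide)
  have k024 := key 0 2 4 (by decide) (by decide) (by decide)
  have k034 := key 0 3 4 (by decide) (by decide) (by decide)
  have k124 := key 1 2 4 (by decide) (by decide) (by decide)
  have k134 := key 1 3 4 (by decide) (by decide) (by decide)
  have k234 := key 2 3 4 (by decide) (by decide) (by decide)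
  rw [l0, l1, l2] at k012
  rw [l0, l1, l3] at k013
  rw [l0, l2, l3] at k023
  rw [l1, l2, l3] at k123
  rw [l0, l1, l4] at k014
  rw [l0, l2, l4] at k024
  rw [l0, l3, l4] at k034
  rw [l1, l2, l4] at k124
  rw [l1, l3, l4] at k134
  rw [l2, l3, l4] at k234
  have ht0 : f 3 ≤ 0 := by linarith
  have hgoal : lor f f = f 0 ^ 2 + f 1 ^ 2 + f 2 ^ 2 - f 3 ^ 2 := by unfold lor; ring
  rw [hgoal]
  rcases eq_or_lt_of_le ht0 with ht | ht
  · -- `f 3 = 0`: the base
    rw [ht] at s0 s1 s2 s3 s4 ⊢
    have h0 : f 0 = 0 := by linarith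
    have h1 : f 1 = 0 := by linarith
    rw [h0, h1]
    have h2 : f 2 ≠ 0 := by
      intro h2
      apply hf0
      funext i
      fin_cases i <;> simp [h0, h1, h2, ht]
    have h3 : 0 < f 2 ^ 2 := by positivity
    simpa using h3
  · -- `f 3 < 0`
    by_cases h4 : 4 * f 2 + 3 * f 3 = 0
    · have hx : f 0 = 0 ∨ f 1 = 0 := by
        by_contra hcon
        push Not at hcon
        obtain ⟨hx, hy⟩ := hcon
        rcases lt_or_gt_of_ne hx with hx | hx <;> rcases lt_or_gt_of_ne hy with hy | hy
        · rcases k013 with h | h | h <;> linarith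
        · rcases k023 with h | h | h <;> linarith
        · rcases k012 with h | h | h <;> linarith
        · rcases k123 with h | h | h <;> linarith
      have h5 : f 2 = -3 / 4 * f 3 := by linarith
      rcases hx with hx | hx
      · have h6 : f 1 ^ 2 = 16 / 25 * f 3 ^ 2 := by
          rw [hx] at k012
          have : 5 * f 1 + 4 * f 3 = 0 ∨ - 5 * f 1 + 4 * f 3 = 0 := by
            rcases k012 with h | h | h
            · left; linarith
            · left; linarith
            · right; linarith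
          rcases this with h | h
          · have : f 1 = -4 / 5 * f 3 := by linarith
            rw [this]; ring
          · have : f 1 = 4 / 5 * f 3 := by linarith
            rw [this]; ring
        rw [hx, h6, h5]
        nlinarith [mul_pos (neg_pos.2 ht) (neg_pos.2 ht)]
      · have h6 : f 0 ^ 2 = 16 / 25 * f 3 ^ 2 := by
          rw [hx] at k012
          have : 5 * f 0 + 4 * f 3 = 0 ∨ - 5 * f 0 + 4 * f 3 = 0 := by
            rcases k012 with h | h | h
            · left; linarith
            · right; linarith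
            · right; linarith
          rcases this with h | h
          · have : f 0 = -4 / 5 * f 3 := by linarith
            rw [this]; ring
          · have : f 0 = 4 / 5 * f 3 := by linarith
            rw [this]; ring
        rw [hx, h6, h5]
        nlinarith [mul_pos (neg_pos.2 ht) (neg_pos.2 ht)]
    · exfalso
      have a01 : 5 * f 0 + 5 * f 1 + 4 * f 3 = 0 ∨ -5 * f 0 + 5 * f 1 + 4 * f 3 = 0 := by
        rcases k014 with h | h | h
        · exact Or.inl h
        · exact Or.inr h
        · exact absurd h h4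
      have a02 : 5 * f 0 + 5 * f 1 + 4 * f 3 = 0 ∨ -5 * f 0 - 5 * f 1 + 4 * f 3 = 0 := by
        rcases k024 with h | h | h
        · exact Or.inl h
        · exact Or.inr h
        · exact absurd h h4
      have a13 : -5 * f 0 + 5 * f 1 + 4 * f 3 = 0 ∨ 5 * f 0 - 5 * f 1 + 4 * f 3 = 0 := by
        rcases k134 with h | h | h
        · exact Or.inl h
        · exact Or.inr h
        · exact absurd h h4
      have a23 : -5 * f 0 - 5 * f 1 + 4 * f 3 = 0 ∨ 5 * f 0 - 5 * f 1 + 4 * f 3 = 0 := by
        rcases k234 with h | h | h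
        · exact Or.inl h
        · exact Or.inr h
        · exact absurd h h4
      have a12 : -5 * f 0 + 5 * f 1 + 4 * f 3 = 0 ∨ -5 * f 0 - 5 * f 1 + 4 * f 3 = 0 := by
        rcases k124 with h | h | h
        · exact Or.inl h
        · exact Or.inr h
        · exact absurd h h4
      have a03 : 5 * f 0 + 5 * f 1 + 4 * f 3 = 0 ∨ 5 * f 0 - 5 * f 1 + 4 * f 3 = 0 := by
        rcases k034 with h | h | h
        · exact Or.inl h
        · exact Or.inr h
        · exact absurd h h4
      rcases a01 with h | h <;> rcases a23 with h' | h' <;> rcases a12 with h'' | h'' <;>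
        rcases a03 with h3 | h3 <;> rcases a02 with g1 | g1 <;> rcases a13 with g2 | g2 <;> linarith

theorem inv_eq (m n : Fin 4 → ℝ) : inv m n = -(lor m n) / (√(lor m m) * √(lor n n)) := rfl

theorem base_pair {m n : Fin 4 → ℝ} (h1 : lor m m = 34) (h2 : lor n n = 34) (h3 : lor m n = -16) :
    ShallowPair m n := by
  have h : inv m n = 16 / 34 := by
    rw [inv_eq, h1, h2, h3, Real.mul_self_sqrt (by norm_num)]; norm_num
  refine ⟨by rw [h]; norm_num, fun h' => ?_⟩
  rw [h] at h'
  norm_num at h'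

theorem apex_pair {m n : Fin 4 → ℝ} (h1 : lor m m * lor n n = 238) (h0 : 0 ≤ lor m m)
    (h3 : lor m n = -12) : ShallowPair m n := by
  have h5 : √(lor m m) * √(lor n n) = √238 := by
    rw [← Real.sqrt_mul h0, h1]
  have h6 : (12 : ℝ) < √238 := by
    rw [Real.lt_sqrt (by norm_num)]; norm_num
  have h : inv m n = 12 / √238 := by
    rw [inv_eq, h5, h3]; norm_num
  refine ⟨by rw [h]; positivity, fun h' => ?_⟩
  rw [h, le_div_iff₀ (by linarith)] at h'
  linarith

theorem local_shallow : LocallyShallow ray := by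
  intro v w hvw
  obtain ⟨hne, f, ⟨hf0, hs⟩, hz⟩ := hvw
  rw [forall5, l0, l1, l2, l3, l4] at hs
  rw [forall5, l0, l1, l2, l3, l4] at hz
  obtain ⟨s0, s1, s2, s3, s4⟩ := hs
  obtain ⟨z0, z1, z2, z3, z4⟩ := hz
  have opp1 : ¬ ((v = 0 ∧ w = 2) ∨ (v = 2 ∧ w = 0)) := by
    rintro (⟨rfl, rfl⟩ | ⟨rfl, rfl⟩)
    all_goals
      have e0 := z0.2 (by decide)
      have e2 := z2.2 (by decide)
      have : -5 * f 0 + 5 * f 1 + 4 * f 3 = 0 := by linarith
      exact absurd (z1.1 this) (by decide)
  have opp2 : ¬ ((v = 1 ∧ w = 3) ∨ (v = 3 ∧ w = 1)) := by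
    rintro (⟨rfl, rfl⟩ | ⟨rfl, rfl⟩)
    all_goals
      have e0 := z1.2 (by decide)
      have e2 := z3.2 (by decide)
      have : 5 * f 0 + 5 * f 1 + 4 * f 3 = 0 := by linarith
      exact absurd (z0.1 this) (by decide)
  clear z0 z1 z2 z3 z4
  have e4 : lor (ray 4) (ray 4) = 7 := by simp [lor, ray]; norm_num
  have e0 : ∀ i : Fin 5, i ≠ 4 → lor (ray i) (ray i) = 34 := by
    intro i hi
    fin_cases i <;> simp [lor, ray] at hi ⊢ <;> norm_num
  by_cases hv : v = 4
  · subst hv
    have hw : w ≠ 4 := fun h => hne h.symm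
    refine apex_pair (by rw [e4, e0 w hw]; norm_num) (by rw [e4]; norm_num) ?_
    fin_cases w <;> simp [lor, ray] at hw ⊢ <;> norm_num
  by_cases hw : w = 4
  · subst hw
    refine apex_pair (by rw [e4, e0 v hv]; norm_num) (by rw [e0 v hv]; norm_num) ?_
    fin_cases v <;> simp [lor, ray] at hv ⊢ <;> norm_num
  refine base_pair (e0 v hv) (e0 w hw) ?_
  fin_cases v <;> fin_cases w <;> simp [lor, ray] at hv hw hne opp1 opp2 ⊢ <;> norm_num

theorem not_global : ¬ GloballyShallow ray := by
  intro h
  obtain ⟨h1, h2⟩ := h 0 2 (by decide)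
  have hl : lor (ray 0) (ray 2) = -66 := by simp [lor, ray]; norm_num
  have h0 : lor (ray 0) (ray 0) = 34 := by simp [lor, ray]; norm_num
  have h22 : lor (ray 2) (ray 2) = 34 := by simp [lor, ray]; norm_num
  have hi : inv (ray 0) (ray 2) = 66 / 34 := by
    rw [inv_eq, hl, h0, h22, Real.mul_self_sqrt (by norm_num)]; norm_num
  have h3 := h2 (by rw [hi]; norm_num)
  have h4 : (EuclideanSpace.single (2 : Fin 3) (1 : ℝ)) ∈ disk (ray 0) ∩ disk (ray 2) := by
    refine ⟨⟨?_, ?_⟩, ⟨?_, ?_⟩⟩
    · simp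
    · simp [ray]
    · simp
    · simp [ray]
  rw [h3] at h4
  exact h4

/-- There is a hyperbolic, convex, locally shallow c-polyhedron which is not globally shallow. -/
theorem result : ∃ n : Fin 5 → Fin 4 → ℝ,
    ConvexCPolyhedron n ∧ Hyperbolic n ∧ LocallyShallow n ∧ ¬ GloballyShallow n :=
  ⟨ray, poly, hyper, local_shallow, not_global⟩

end Pool.Agent.Results.MP_625e57_gt.NotGloballyShallow
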